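import Pool.Agent.Helper20.CK3.Fix

/-!
# Reductive subgroups of `O(r,n)`, `U(r,n)` which fix `min r n` coordinate vectors

Let `G` be `O(r,n)` or `U(r,n)` and let `H` be a reductive subgroup of `G` which fixes at least
`min r n` (the real rank of `G`) of the coordinate vectors. If `G ⧸ H` admits a cocompact
discontinuous group, then `H` is compact.

The definitions `U`, `IsReductive`, `AdmitsCocompact` are in `Pool/Agent/Helper20/CK3/NatDefs.lean`.

Outline of the proof. Let `p` be the space of the matrices `(0, B; B*, 0)`, `B` with `r` rows and `n`
columns, `q` its intersection with the Lie algebra of `H`, `C` the set of the elements of `p`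
conjugate to an element of `q` under `K = U(r) × U(n)`.
* A cocompact discontinuous group gives an odd continuous map `F` from the orthogonal complement of
  `q` in `p`, without the origin, to the complement of `C` in `p`, homotopic to the inclusion as a map
  to the complement of `q`.
* Let `g t`, `0 ≤ t ≤ 1`, be a homotopy of maps from the nonzero vectors of `q` to `C` without the
  origin, `g 0` the inclusion and `g 1` an even map. The join `F x - g t y` is a homotopy of maps of
  spheres from an odd map to a map which is invariant under a change of signs: a contradiction, by a
  theorem of Borsuk and Ulam type (the number of the full flags of a fine grid is odd).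
* In the present case `B = (A, 0)` in suitable coordinates, `A` with `a` rows and `b` columns,
  `a + b ≤ n` (or `a + b ≤ r`), and the path `cos t * (A, 0) + sin t * (0, s(A))`, `s(A)` the positive
  square root of `A * A*`, has constant products with its conjugate transpose, so it stays in `C`; it
  starts at `(A, 0)` and ends at an even map.
-/

open Matrix

namespace Pool.Agent.Results.MP_bf60c4_gt.FixedVectors

open Pool.Agent.Helper20.CKN

/-- Let `G = U K r n` (`O(r,n)` or `U(r,n)`) and let `H` be a reductive subgroup of `G` which fixes at
least `min r n` of the coordinate vectors of `K ^ (r + n)`. If `G ⧸ H` admits a cocompact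
discontinuous group, then `H` is compact. -/
theorem result {K : Type} [RCLike K] {r n : ℕ} {H : Subgroup (U K r n)} (hH : IsReductive H)
    (T : Finset (Fin (r + n))) (hT : min r n ≤ T.card)
    (hfix : ∀ h ∈ H, ∀ i ∈ T, h.val.val *ᵥ Pi.single i 1 = Pi.single i 1)
    (had : AdmitsCocompact H) : IsCompact (H : Set (U K r n)) :=
  fixed hH T hT hfix had

end Pool.Agent.Results.MP_bf60c4_gt.FixedVectors
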