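import Pool.Agent.Helper20.CK3.Nat

/-!
# Reductive subgroups of `O(2,n)`, `U(2,n)`, `O(3,n)`, `U(3,n)`: only the trivial cases

Let `G` be `O(2,n)` or `U(2,n)` with `n ≥ 3` odd, or `O(3,n)` with `n ≥ 11` not divisible by four, or
`U(3,n)` with `n ≥ 23` odd, and `H` a reductive subgroup of `G`. If the homogeneous space `G ⧸ H`
admits a cocompact discontinuous group, then `H` is compact or `G ⧸ H` is compact. The converse is
classical (Borel).

The definitions `U`, `IsReductive`, `AdmitsCocompact` are in `Pool/Agent/Helper20/CK3/NatDefs.lean`.
A reductive subgroup `H` of `G` is conjugate in `G` to one which is stable under `g ↦ g*` (Mostow);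
so the theorem covers all reductive subgroups `H`.

Outline of the proof.
* A cocompact discontinuous group gives an odd continuous map from the orthogonal complement of
  `p_H` in `p`, without the origin, to the elements of `p` which are not conjugate to an element of
  `p_H`. Here `p` is the space of the matrices `(0, B; B*, 0)`, `B` with `r` rows and `n` columns, and
  `p_H` its intersection with the Lie algebra of `H`.
* Two rows. An odd continuous map from a real space of dimension greater than `n * finrank ℝ K`,
  without the origin, to the matrices with two rows takes every ratio of the singular values (Borsuk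
  and Ulam, and a lifting argument). So the dimension of `p_H` is at least `n * finrank ℝ K`, and all
  its elements have the same ratio of singular values, or `p_H = p`. These Lie triple systems are
  classified, and a theorem of Borsuk and Ulam for products of spheres excludes them for odd `n`.
* Three rows: `H` has real rank one, two or three. The singular values of the odd map avoid the
  images of a line or a plane under the Weyl group, so they miss a wall of the Weyl chamber, and
  Borsuk and Ulam theorems for products of spheres bound the dimension of `p_H` from below; the
  remaining Lie triple systems exist only if `n` is a multiple of four, or even if `K` is complex.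
-/

namespace Pool.Agent.Results.MP_bf60c4_gt.NoCompactForms

open Pool.Agent.Helper20.CKN

/-- Let `G = U K r n` be `O(2,n)` or `U(2,n)` with `n ≥ 3` odd, or `O(3,n)` with `n ≥ 11` not
divisible by four, or `U(3,n)` (or `O(3,n)`) with `n ≥ 23` odd, and let `H` be a reductive subgroup of
`G`. If `G ⧸ H` admits a cocompact discontinuous group, then `H` is compact or `G ⧸ H` is compact. -/
theorem result {K : Type} [RCLike K] {r n : ℕ}
    (hrn : (r = 2 ∧ 3 ≤ n ∧ Odd n) ∨ (r = 3 ∧ Module.finrank ℝ K = 1 ∧ 11 ≤ n ∧ ¬ 4 ∣ n) ∨
      (r = 3 ∧ 23 ≤ n ∧ Odd n))
    {H : Subgroup (U K r n)} (hH : IsReductive H) (had : AdmitsCocompact H) :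
    IsCompact (H : Set (U K r n)) ∨ CompactSpace (U K r n ⧸ H) :=
  main hrn hH had

end Pool.Agent.Results.MP_bf60c4_gt.NoCompactForms
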