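import Pool.Agent.Helper20.RPN.Main

/-!
# Compact Clifford-Klein forms of products of groups of real rank one

The definitions are in `Pool/Agent/Helper14/CKS/Grp.lean` and `Pool/Agent/Helper20/RPN/Defs.lean`.

Let `G i`, `i : Fin r`, be real reductive linear groups of real rank at most one (compact groups are
allowed, the real line and `O(1,1)` are not), and let `H` be a reductive subgroup of their product.
If the homogeneous space of the product by `H` admits a cocompact discontinuous group, then for a set
`B` of indices the projection of the space `p` of `H` to the sum of the spaces `p` of the `G i`, `i`
in `B`, is bijective; and then the product of the other `G i` acts properly and cocompactly, which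
gives the standard quotients.

Outline of the proof. Let `Q` be the orthogonal complement of `p_H` in `p`, and `C` the set of the
elements of `p` which are conjugate under the maximal compact group `K` to an element of `p_H`.
* A cocompact discontinuous group gives a continuous map `s` from the group to `H` such that, for
  `t = g * s g`, every element `t₁⁻¹ * t₂` which is in `K H K` is in a fixed compact set
  (`exists_selection`, Helper17). Applied to `g = exp (R X)`, `X` in `Q`, for a large `R`, this gives
  an odd continuous map from `Q` minus the origin to `p` minus `C` (`odd_map`, Helper17).
* All elements of `p_H` are conjugate into a maximal abelian subspace (`exists_abelian`, Helper29),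
  and in rank one the compact group acts transitively on the unit sphere of `pSpace (G i)`
  (`trans_group`), so `C` is given by the norms of the components, which form a linear space up to
  signs.
* A generic linear functional and the theorem of Borsuk and Ulam (`exists_subset`) give a set `B` for
  which the projection of `p_H` is injective and the dimensions agree (`core`, `projBij_of`).
-/

namespace Pool.Agent.Results.MP_bf60c4_gt.RankOneProducts

open Matrix Pool.Agent.Helper20.RPN
open Pool.Agent.Helper14.CKS (IsReductive pSpace IsTorsionFreeLattice)

/-- Let `S` be the product of reductive linear groups `G i` of real rank at most one, whose spaces `p`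
are not lines, and `H` a reductive subgroup of `S`. Then (a), (b), (c) of `Answer`
(`Pool/Agent/Helper20/RPN/Defs.lean`) are true, with the hypothesis that every `G i` has a torsion-free
cocompact discrete subgroup in (c). -/
theorem result {r : ℕ} {n : Fin r → ℕ} {G : ∀ i, Subgroup (GL (Fin (n i)) ℝ)}
    (hG : ∀ i, IsReductive (G i)) (h1 : ∀ i, IsRankOne (G i))
    {H : Subgroup (∀ i, G i)} (hH : IsReductiveIn (coord G) H) :
    Answer (coord G) (fun i => pSpace (G i)) H
      (∀ i, ∃ Γ : Subgroup (G i), IsTorsionFreeLattice Γ ⊤) :=
  main hG h1 hH

end Pool.Agent.Results.MP_bf60c4_gt.RankOneProducts
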