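import Pool.Agent.Helper20.CK3.R1

/-!
# Reductive subgroups of real rank one of `O(r,n)` and `U(r,n)`

Let `G` be `O(r,n)` or `U(r,n)`, `n` large with respect to `r`, and `H` a noncompact reductive subgroup
of `G` of real rank one. If `G ⧸ H` admits a cocompact discontinuous group, then the space `p_H` of
the Cartan decomposition of `H` is that of a subgroup of one of three types.

The definitions `U`, `IsReductive`, `AdmitsCocompact` are in `Pool/Agent/Helper20/CK3/NatDefs.lean`,
`pH`, `RealRankLeOne`, `Type1`, `Type2`, `Type4` in `Pool/Agent/Helper20/CK3/R1Defs.lean`.

Outline of the proof.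
* A cocompact discontinuous group gives an odd continuous map from the orthogonal complement of
  `p_H`, without the origin, to the elements of `p` which are not conjugate to an element of `p_H`.
  All the elements of `p_H` have proportional singular values.
* Borsuk and Ulam theorems bound the dimension of `p_H` from below; the real spaces of matrices with
  proportional singular values, of large dimension and stable under triple products, are classified.
* The divisibility conditions follow from Borsuk and Ulam theorems for products of spheres.
-/

namespace Pool.Agent.Results.MP_bf60c4_gt.RealRankOne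

open Module Pool.Agent.Helper20.CKN

/-- Let `G = U K r n` (`O(r,n)` or `U(r,n)`), `d = dim_ℝ K`, `d r (d r + 2) ≤ d n + 4`, and let `H` be a
reductive subgroup of `G` of real rank at most one. If `G ⧸ H` admits a cocompact discontinuous group,
then `H` is compact or of one of the three types. -/
theorem result {K : Type} [RCLike K] {r n : ℕ}
    (hn : finrank ℝ K * r * (finrank ℝ K * r + 2) ≤ finrank ℝ K * n + 4)
    {H : Subgroup (U K r n)} (hH : IsReductive H) (h1 : RealRankLeOne H)
    (had : AdmitsCocompact H) :
    IsCompact (H : Set (U K r n)) ∨
    (Type1 H ∧ ∀ t, 2 ^ t < 2 * r → 2 ^ t ∣ n) ∨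
    (Type2 H ∧ (finrank ℝ K = 1 → r = 2)) ∨
    ∃ N, n ≤ N + 2 ∧ finrank ℝ K = 1 ∧ Type4 N H :=
  real_rank_one hn hH h1 had

end Pool.Agent.Results.MP_bf60c4_gt.RealRankOne
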